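import Mathlib

namespace Pool.Agent.Results.MP_25dd1e_co.Determination

/-- The integer sequence `a 0, a 1, ..., a n` is acceptable for `b, c`:
`0 = a 0 < a 1 < ... < a n` and `a (i + b) ≤ a i + c` whenever `i + b ≤ n`.
(Values of `a` beyond the index `n` are irrelevant.) -/
structure Acceptable (b c n : ℕ) (a : ℕ → ℤ) : Prop where
  zero : a 0 = 0
  lt_succ : ∀ i, i < n → a i < a (i + 1)
  growth : ∀ i, i + b ≤ n → a (i + b) ≤ a i + c

/-- The sequence `a 0, ..., a n` hits `k`. -/
def Hits (k n : ℕ) (a : ℕ → ℤ) : Prop :=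
  ∃ i j : ℕ, i < j ∧ j ≤ n ∧ a j = a i + k

/-- Every acceptable sequence `a 0, ..., a n` hits `k`. -/
def AlwaysHits (b c k n : ℕ) : Prop :=
  ∀ a : ℕ → ℤ, Acceptable b c n a → Hits k n a

section basic

variable {b c k n : ℕ} {a : ℕ → ℤ}

lemma Acceptable.add_le (h : Acceptable b c n a) (i d : ℕ) (hid : i + d ≤ n) :
    a i + d ≤ a (i + d) := by
  induction d with
  | zero => simp
  | succ d ih =>
    have h1 := ih (by omega)
    have h2 := h.lt_succ (i + d) (by omega)
    have h3 : i + (d + 1) = i + d + 1 := by ring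
    rw [h3]
    push_cast
    linarith

lemma Acceptable.lt (h : Acceptable b c n a) {i j : ℕ} (hij : i < j) (hj : j ≤ n) : a i < a j := by
  obtain ⟨d, rfl⟩ := Nat.exists_eq_add_of_lt hij
  have := h.add_le i (d + 1) (by omega)
  rw [show i + d + 1 = i + (d + 1) by ring]
  push_cast at this ⊢
  linarith

lemma Acceptable.lt_of_lt (h : Acceptable b c n a) {i j : ℕ} (hi : i ≤ n) 
    (hlt : a i < a j) : i < j := by
  by_contra hc
  push Not at hc
  rcases Nat.lt_or_ge j i with h1 | h1
  · have := h.lt h1 hi
    linarith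
  · have : i = j := by omega
    subst this
    linarith

/-- restricting an acceptable sequence. -/
lemma Acceptable.mono (h : Acceptable b c n a) {n' : ℕ} (hn : n' ≤ n) : Acceptable b c n' a :=
  ⟨h.zero, fun i hi => h.lt_succ i (by omega), fun i hi => h.growth i (by omega)⟩

lemma AlwaysHits.mono (h : AlwaysHits b c k n) {n' : ℕ} (hn : n ≤ n') : AlwaysHits b c k n' := by
  intro a ha
  obtain ⟨i, j, h1, h2, h3⟩ := h a (ha.mono hn)
  exact ⟨i, j, h1, by omega, h3⟩

/-- Pigeonhole: in a sequence that does not hit `k`, `k` steps cost at least `2k`. -/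
lemma gap_k (h : Acceptable b c n a) (hk : 0 < k) (hh : ¬ Hits k n a) (i : ℕ) (hi : i + k ≤ n) :
    a i + 2 * k ≤ a (i + k) := by
  by_contra hc
  push Not at hc
  have hmaps : ∀ j ∈ Finset.range (k + 1),
      ((a (i + j) - a i) % (k : ℤ)) ∈ Finset.Ico (0 : ℤ) k := by
    intro j _
    rw [Finset.mem_Ico]
    exact ⟨Int.emod_nonneg _ (by omega), Int.emod_lt_of_pos _ (by omega)⟩
  have hcard : (Finset.Ico (0 : ℤ) k).card < (Finset.range (k + 1)).card := by
    simp
  obtain ⟨x, hx, y, hy, hxy, hf⟩ := Finset.exists_ne_map_eq_of_card_lt_of_maps_to hcard hmaps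
  rw [Finset.mem_range] at hx hy
  have key : ∀ x y : ℕ, x < y → y < k + 1 → 
      (a (i + x) - a i) % (k : ℤ) = (a (i + y) - a i) % (k : ℤ) → False := by
    intro x y hxy hy hf
    have h1 := h.lt (show i + x < i + y by omega) (by omega)
    have h2 : a i ≤ a (i + x) := by
      have := h.add_le i x (by omega)
      have h0 : (0 : ℤ) ≤ x := by positivity
      linarith
    have h3 : a (i + y) ≤ a (i + k) := by
      have := h.add_le (i + y) (k - y) (by omega)
      rw [show i + y + (k - y) = i + k by omega] at this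
      have h0 : (0 : ℤ) ≤ ((k - y : ℕ) : ℤ) := by positivity
      linarith
    have hdvd : (k : ℤ) ∣ (a (i + y) - a (i + x)) := by
      have := Int.emod_emod_of_dvd
      have h4 : (a (i + y) - a i) - (a (i + x) - a i) = a (i + y) - a (i + x) := by ring
      rw [← h4]
      exact Int.ModEq.dvd hf
    obtain ⟨t, ht⟩ := hdvd
    have ht1 : 0 < (k : ℤ) * t := by rw [← ht]; linarith
    have ht2 : (k : ℤ) * t < 2 * k := by rw [← ht]; linarith
    have hk' : (0 : ℤ) < k := by exact_mod_cast hk
    have ht3 : 0 < t := by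
      by_contra hcon
      push Not at hcon
      nlinarith
    have ht4 : t < 2 := by
      by_contra hcon
      push Not at hcon
      nlinarith
    have ht5 : t = 1 := by omega
    subst ht5
    exact hh ⟨i + x, i + y, by omega, by omega, by linarith⟩
  rcases Nat.lt_or_gt_of_ne hxy with h1 | h1
  · exact key x y h1 hy hf
  · exact key y x h1 hx hf.symm

lemma gap_mul (h : Acceptable b c n a) (hk : 0 < k) (hh : ¬ Hits k n a) (Q i : ℕ)
    (hi : i + Q * k ≤ n) : a i + 2 * (Q * k : ℕ) ≤ a (i + Q * k) := by
  induction Q with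
  | zero => simp
  | succ Q ih =>
    have e : (Q + 1) * k = Q * k + k := by ring
    rw [e] at hi ⊢
    have h1 := ih (by omega)
    have h2 := gap_k h hk hh (i + Q * k) (by omega)
    rw [← add_assoc]
    push_cast at h1 h2 ⊢
    linarith

/-- Two blocks of the sequence, the first shifted by `k`, cannot both fit in a short interval. -/
lemma two_blocks (h : Acceptable b c n a) (hk : 0 < k) (hh : ¬ Hits k n a) (p q j : ℕ)
    (lo : ℤ) (len : ℕ) (hp : p ≤ n) (hq : j + q ≤ n)
    (h1 : lo ≤ a 0 + k) (h2 : a p + k < lo + len) (h3 : lo ≤ a j) (h4 : a (j + q) < lo + len) :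
    p + 1 + (q + 1) ≤ len := by
  have hX : ((Finset.range (p + 1)).image (fun i => a i + (k : ℤ))).card = p + 1 := by
    rw [Finset.card_image_of_injOn, Finset.card_range]
    intro x hx y hy hxy
    simp only [Finset.coe_range, Set.mem_Iio] at hx hy
    have hxy' : a x = a y := by simpa using hxy
    rcases Nat.lt_trichotomy x y with h | h | h
    · have := Acceptable.lt (b := b) (c := c) (n := n) ‹_› h (by omega); linarith
    · exact h
    · have := Acceptable.lt (b := b) (c := c) (n := n) ‹_› h (by omega); linarith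
  have hY : ((Finset.range (q + 1)).image (fun i => a (j + i))).card = q + 1 := by
    rw [Finset.card_image_of_injOn, Finset.card_range]
    intro x hx y hy hxy
    simp only [Finset.coe_range, Set.mem_Iio] at hx hy
    have hxy' : a (j + x) = a (j + y) := by simpa using hxy
    rcases Nat.lt_trichotomy x y with h | h | h
    · have := Acceptable.lt (b := b) (c := c) (n := n) ‹_› (show j + x < j + y by omega) (by omega)
      linarith
    · exact h
    · have := Acceptable.lt (b := b) (c := c) (n := n) ‹_› (show j + y < j + x by omega) (by omega)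
      linarith
  have hdisj : Disjoint ((Finset.range (p + 1)).image (fun i => a i + (k : ℤ)))
      ((Finset.range (q + 1)).image (fun i => a (j + i))) := by
    rw [Finset.disjoint_left]
    intro z hz1 hz2
    rw [Finset.mem_image] at hz1 hz2
    obtain ⟨x, hx, rfl⟩ := hz1
    obtain ⟨y, hy, hxy⟩ := hz2
    rw [Finset.mem_range] at hx hy
    apply hh
    refine ⟨x, j + y, ?_, by omega, hxy⟩
    apply h.lt_of_lt (by omega)
    rw [hxy]
    have : (0 : ℤ) < k := by exact_mod_cast hk
    linarith
  have hsub : ((Finset.range (p + 1)).image (fun i => a i + (k : ℤ))) ∪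
      ((Finset.range (q + 1)).image (fun i => a (j + i))) ⊆ Finset.Ico lo (lo + len) := by
    intro z hz
    rw [Finset.mem_union, Finset.mem_image, Finset.mem_image] at hz
    rw [Finset.mem_Ico]
    rcases hz with ⟨x, hx, rfl⟩ | ⟨x, hx, rfl⟩
    · rw [Finset.mem_range] at hx
      have e1 := h.add_le 0 x (by omega)
      have e2 := h.add_le x (p - x) (by omega)
      rw [show x + (p - x) = p by omega] at e2
      rw [Nat.zero_add] at e1
      have : (0 : ℤ) ≤ ((p - x : ℕ) : ℤ) := by positivity
      have : (0 : ℤ) ≤ (x : ℤ) := by positivity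
      constructor <;> linarith
    · rw [Finset.mem_range] at hx
      have e1 := h.add_le j x (by omega)
      have e2 := h.add_le (j + x) (q - x) (by omega)
      rw [show j + x + (q - x) = j + q by omega] at e2
      have : (0 : ℤ) ≤ ((q - x : ℕ) : ℤ) := by positivity
      have : (0 : ℤ) ≤ (x : ℤ) := by positivity
      constructor <;> linarith
  have hc := Finset.card_le_card hsub
  rw [Finset.card_union_of_disjoint hdisj, hX, hY, Int.card_Ico] at hc
  have : (lo + (len : ℤ) - lo).toNat = len := by simp
  rw [this] at hc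
  exact hc

/-- The easy upper bound: if `c - b < k * (b / k)` then already `n = b` works. -/
lemma always_easy (hk : 0 < k) (hbc : b ≤ c) (h : c - b < k * (b / k)) : AlwaysHits b c k b := by
  intro a ha
  by_contra hh
  have hdm := Nat.div_add_mod b k
  have hcomm : k * (b / k) = b / k * k := Nat.mul_comm _ _
  have hidx : b % k + b / k * k = b := by omega
  have g1 := gap_mul ha hk hh (b / k) (b % k) (by omega)
  rw [hidx] at g1
  have g2 := ha.growth 0 (by omega)
  rw [Nat.zero_add, ha.zero] at g2
  have g3 := ha.add_le 0 (b % k) (by omega)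
  rw [Nat.zero_add, ha.zero] at g3
  omega

/-- The main upper bound for `c < 2 * b`. -/
lemma always_main {q r e s P m B : ℕ} (hk : 0 < k) (hb : b = q * k + r) (he : 1 ≤ e)
    (her : e ≤ r) (hc : c + e = 2 * b) (hs : s + r = k) (hs0 : 1 ≤ s) (hP : P = 2 * s + e)
    (hm : m = 2 * r - (2 * e + k)) (hB : B = s * (m / P) + min s (m % P)) :
    AlwaysHits b c k ((q + 1) * k + B) := by
  intro a ha
  by_contra hh
  set n := (q + 1) * k + B with hn
  have hM : (q + 1) * k = q * k + k := by ring
  have hnb : n = B + s + b := by omega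
  -- step 2
  have step2 : ∀ i, i ≤ B → a i + P ≤ a (i + s) := by
    intro i hi
    have g1 := gap_mul ha hk hh (q + 1) i (by omega)
    have g2 := ha.growth (i + s) (by omega)
    have e1 : i + s + b = i + (q + 1) * k := by omega
    rw [e1] at g2
    omega
  -- the first block
  have blockX : a r ≤ 2 * r - e := by
    have g1 := gap_mul ha hk hh q r (by omega)
    have g2 := ha.growth 0 (by omega)
    rw [Nat.zero_add, ha.zero] at g2
    rw [show r + q * k = b by omega] at g1
    omega
  -- step 3
  have step3 : a (B + s) + e + 1 ≤ k := by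
    by_contra hcon
    push Not at hcon
    rcases lt_or_ge (k : ℤ) (a (B + s) + e) with hlt | hge
    · -- `k < a (B+s) + e`
      have hex : ∃ j, (k : ℤ) < a j + e := ⟨B + s, hlt⟩
      classical
      set j := Nat.find hex with hj
      have hj1 : (k : ℤ) < a j + e := Nat.find_spec hex
      have hj2 : j ≤ B + s := Nat.find_min' hex hlt
      have hj0 : j ≠ 0 := by
        intro h0
        rw [h0, ha.zero] at hj1
        omega
      obtain ⟨i, hi⟩ : ∃ i, j = i + 1 := ⟨j - 1, by omega⟩
      have hi1 : ¬ (k : ℤ) < a i + e := Nat.find_min hex (by omega)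
      have g2 := ha.growth i (by omega)
      have g1 := gap_mul ha hk hh q (i + r) (by omega)
      rw [show i + r + q * k = i + b by omega] at g1
      have := two_blocks ha hk hh r (r - 1) j ((k : ℤ) - e + 1) (2 * r) (by omega) (by omega)
        (by rw [ha.zero]; omega) (by omega) (by omega)
        (by rw [show j + (r - 1) = i + r by omega]; omega)
      omega
    · have heq : a (B + s) + e = k := by omega
      have g2 := ha.growth (B + s) (by omega)
      have g1 := gap_mul ha hk hh q (B + s + r) (by omega)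
      rw [show B + s + r + q * k = B + s + b by omega] at g1
      have := two_blocks ha hk hh r r (B + s) ((k : ℤ) - e) (2 * r + 1) (by omega) (by omega)
        (by rw [ha.zero]; omega) (by omega) (by omega) (by omega)
      omega
  -- step 4
  have step4a : ∀ h : ℕ, h * s ≤ B → ((h * P : ℕ) : ℤ) ≤ a (h * s) := by
    intro h
    induction h with
    | zero => intro _; simp [ha.zero]
    | succ h ih =>
      intro hle
      have e1 : (h + 1) * s = h * s + s := by ring
      have e2 : (h + 1) * P = h * P + P := by ring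
      rw [e1] at hle ⊢
      rw [e2]
      have := ih (by omega)
      have := step2 (h * s) (by omega)
      push_cast at *
      linarith
  have hdm := Nat.div_add_mod m P
  have hcomm : P * (m / P) = m / P * P := Nat.mul_comm _ _
  have hcomm2 : s * (m / P) = m / P * s := Nat.mul_comm _ _
  have hlt : m % P < P := Nat.mod_lt _ (by omega)
  have step4 : (m : ℤ) ≤ a B := by
    rcases Nat.lt_or_ge (m % P) s with h1 | h1
    · have hB' : B = m / P * s + m % P := by
        rw [hB, min_eq_right h1.le]; omega
      have g1 := step4a (m / P) (by omega)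
      have g2 := ha.add_le (m / P * s) (m % P) (by omega)
      rw [← hB'] at g2
      omega
    · have hB' : B = (m / P + 1) * s := by
        rw [hB, min_eq_left h1]; ring
      have g1 := step4a (m / P + 1) (by omega)
      rw [← hB'] at g1
      have e3 : (m / P + 1) * P = m / P * P + P := by ring
      omega
  have := step2 B le_rfl
  have hB0 := ha.add_le 0 B (by omega)
  rw [Nat.zero_add, ha.zero] at hB0
  omega

end basic

section word

/-- counting `x < t` with `x % P < s`. -/
lemma count_mod_lt {P s : ℕ} (hs : s < P) (t : ℕ) :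
    Nat.count (fun x => x % P < s) t = s * (t / P) + min s (t % P) := by
  induction t with
  | zero => simp
  | succ t ih =>
    rw [Nat.count_succ, ih]
    obtain ⟨h, ρ, hρ, ht⟩ : ∃ h ρ, ρ < P ∧ t = P * h + ρ :=
      ⟨t / P, t % P, Nat.mod_lt _ (by omega), (Nat.div_add_mod t P).symm⟩
    have hP : 0 < P := by omega
    have e1 : t / P = h := by
      rw [ht, Nat.mul_add_div hP, Nat.div_eq_of_lt hρ, Nat.add_zero]
    have e2 : t % P = ρ := by
      rw [ht, Nat.mul_add_mod, Nat.mod_eq_of_lt hρ]
    rw [e1, e2]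
    rcases Nat.lt_or_ge (ρ + 1) P with h1 | h1
    · have e3 : (t + 1) / P = h := by
        rw [ht, Nat.add_assoc, Nat.mul_add_div hP, Nat.div_eq_of_lt h1, Nat.add_zero]
      have e4 : (t + 1) % P = ρ + 1 := by
        rw [ht, Nat.add_assoc, Nat.mul_add_mod, Nat.mod_eq_of_lt h1]
      rw [e3, e4]
      split_ifs with h2
      · rw [min_eq_right h2.le, min_eq_right (by omega : ρ + 1 ≤ s)]
        omega
      · rw [min_eq_left (by omega : s ≤ ρ), min_eq_left (by omega : s ≤ ρ + 1), Nat.add_zero]
    · have h5 : t + 1 = P * (h + 1) := by rw [ht]; ring_nf; omega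
      have e3 : (t + 1) / P = h + 1 := by
        rw [h5, Nat.mul_div_cancel_left _ hP]
      have e4 : (t + 1) % P = 0 := by
        rw [h5, Nat.mul_mod_right]
      rw [e3, e4, if_neg (by omega), min_eq_left (by omega : s ≤ ρ)]
      simp
      ring

/-- One half period of the word. -/
def g (P s m z : ℕ) : Prop := z < m + P - 1 ∧ (z + 1) % P < s

instance (P s m z : ℕ) : Decidable (g P s m z) := by unfold g; infer_instance

/-- The `k`-antiperiodic word. -/
def β (k P s m y : ℕ) : Prop :=
  if y % (2 * k) < k then g P s m (y % (2 * k)) else ¬ g P s m (y % (2 * k) - k)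

instance (k P s m : ℕ) : DecidablePred (β k P s m) := by
  intro y; unfold β; infer_instance

variable {k P s m e : ℕ}

lemma β_anti (hk : 0 < k) (y : ℕ) : β k P s m (k + y) ↔ ¬ β k P s m y := by
  have hlt : y % (2 * k) < 2 * k := Nat.mod_lt _ (by omega)
  have h0 : (k + y) % (2 * k) = (k + y % (2 * k)) % (2 * k) := by
    rw [Nat.add_mod, Nat.mod_eq_of_lt (show k < 2 * k by omega)]
  unfold β
  rcases Nat.lt_or_ge (y % (2 * k)) k with h | h
  · have h1 : (k + y) % (2 * k) = k + y % (2 * k) := by
      rw [h0, Nat.mod_eq_of_lt (by omega)]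
    rw [h1, if_neg (by omega), if_pos h, Nat.add_sub_cancel_left]
  · have h1 : (k + y) % (2 * k) = y % (2 * k) - k := by
      rw [h0, Nat.mod_eq_sub_mod (by omega), Nat.mod_eq_of_lt (by omega)]
      omega
    rw [h1, if_pos (by omega), if_neg (by omega), not_not]

lemma β_small {z : ℕ} (hz : z < k) : β k P s m z ↔ g P s m z := by
  unfold β
  rw [Nat.mod_eq_of_lt (by omega : z < 2 * k), if_pos hz]

/-- antiperiodicity of the counting function. -/
lemma count_anti (hk : 0 < k) (t : ℕ) :
    Nat.count (β k P s m) (k + t) + Nat.count (β k P s m) t = Nat.count (β k P s m) k + t := by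
  induction t with
  | zero => simp
  | succ t ih =>
    rw [← Nat.add_assoc, Nat.count_succ, Nat.count_succ]
    have := β_anti (P := P) (s := s) (m := m) hk t
    by_cases h : β k P s m t
    · rw [if_neg (by tauto), if_pos h]; omega
    · rw [if_pos (by tauto), if_neg h]; omega

lemma count_period (hk : 0 < k) (q t : ℕ) :
    Nat.count (β k P s m) (2 * (q * k) + t) = q * k + Nat.count (β k P s m) t := by
  induction q with
  | zero => simp
  | succ q ih =>
    have h1 := count_anti (P := P) (s := s) (m := m) hk (k + (2 * (q * k) + t))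
    have h2 := count_anti (P := P) (s := s) (m := m) hk (2 * (q * k) + t)
    have e1 : 2 * ((q + 1) * k) + t = k + (k + (2 * (q * k) + t)) := by ring
    have e2 : (q + 1) * k = q * k + k := by ring
    rw [e1, e2]
    omega

/-- counting in the low region -/
lemma count_low (hs : 1 ≤ s) (hP : s < P) (hkm : m + P ≤ k + 1) (t : ℕ) (ht : t ≤ m + P - 1) :
    Nat.count (β k P s m) t + 1 = s * ((t + 1) / P) + min s ((t + 1) % P) := by
  rw [← count_mod_lt hP (t + 1), Nat.count_succ']
  rw [if_pos (by simp; omega)]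
  congr 1
  induction t with
  | zero => simp
  | succ t ih =>
    rw [Nat.count_succ, Nat.count_succ, ih (by omega)]
    congr 1
    have : β k P s m t ↔ (t + 1) % P < s := by
      rw [β_small (by omega)]
      unfold g
      constructor
      · exact fun h => h.2
      · exact fun h => ⟨by omega, h⟩
    simp only [this]

lemma count_le_add (p : ℕ → Prop) [DecidablePred p] (a d : ℕ) :
    Nat.count p (a + d) ≤ Nat.count p a + d := by
  rw [Nat.count_add]
  have := Nat.count_le (p := fun k => p (a + k)) (n := d)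
  omega

lemma count_k (hs : 1 ≤ s) (hP : s < P) (hkm : m + P ≤ k + 1) :
    Nat.count (β k P s m) k = Nat.count (β k P s m) (m + P - 1) := by
  have h : ∀ d, m + P - 1 + d ≤ k → 
      Nat.count (β k P s m) (m + P - 1 + d) = Nat.count (β k P s m) (m + P - 1) := by
    intro d
    induction d with
    | zero => simp
    | succ d ih =>
      intro hd
      have hneg : ¬ β k P s m (m + P - 1 + d) := by
        rw [β_small (by omega)]
        unfold g
        omega
      rw [← Nat.add_assoc, Nat.count_succ, ih (by omega), if_neg hneg, Nat.add_zero]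
  have := h (k - (m + P - 1)) (by omega)
  rw [← this]
  congr 1
  omega

/-- the window lemma -/
lemma window (hs : 1 ≤ s) (he : 1 ≤ e) (hm : 1 ≤ m) (hP : P = 2 * s + e) 
    (hk : k = m + 2 * s + 2 * e) (y : ℕ) (hy : β k P s m y) (h1 : P - 1 ≤ y)
    (h2 : y ≤ m + 2 * P - 3) :
    Nat.count (β k P s m) y ≤ Nat.count (β k P s m) (y - (P - 1)) + (s - 1) := by
  have hk0 : 0 < k := by omega
  have hP0 : 0 < P := by omega
  rcases Nat.lt_or_ge y (m + P - 1) with hA | hA
  · have c1 := count_low (k := k) (P := P) (s := s) (m := m) hs (by omega) (by omega) (y + 1) 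
      (by omega)
    have c2 := count_low (k := k) (P := P) (s := s) (m := m) hs (by omega) (by omega) (y - (P - 1)) 
      (by omega)
    rw [Nat.count_succ, if_pos hy] at c1
    have e1 : y + 1 + 1 = (y - (P - 1) + 1) + P := by omega
    rw [e1, Nat.add_div_right _ hP0, Nat.add_mod_right, Nat.mul_succ] at c1
    omega
  · rcases Nat.lt_or_ge y k with hB | hB
    · exfalso
      rw [β_small hB] at hy
      unfold g at hy
      omega
    · obtain ⟨z, rfl⟩ := Nat.exists_eq_add_of_le hB
      have hz : z ≤ 2 * s - 3 := by omega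
      rw [β_anti hk0, β_small (by omega)] at hy
      have hz2 : s - 1 ≤ z := by
        by_contra hcon
        apply hy
        refine ⟨by omega, ?_⟩
        rw [Nat.mod_eq_of_lt (by omega)]
        omega
      have c0 := count_anti (P := P) (s := s) (m := m) hk0 z
      have c1 := count_low (k := k) (P := P) (s := s) (m := m) hs (by omega) (by omega) z
        (by omega)
      rw [Nat.div_eq_of_lt (by omega), Nat.mod_eq_of_lt (by omega), min_eq_left (by omega)] at c1
      have c2 := count_k (k := k) (P := P) (s := s) (m := m) hs (by omega) (by omega)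
      have c3 := count_le_add (β k P s m) (k + z - (P - 1)) (m + P - 1 - (k + z - (P - 1)))
      rw [show k + z - (P - 1) + (m + P - 1 - (k + z - (P - 1))) = m + P - 1 by omega] at c3
      omega

end word

section lower

variable {b c k : ℕ}

/-- The main lower bound for `c < 2 * b`, when `m ≥ 1`. -/
lemma lower_word {q r e s P m B n : ℕ} (hk : 0 < k) (hb : b = q * k + r) (he : 1 ≤ e)
    (hc : c + e = 2 * b) (hs : s + r = k) (hs0 : 1 ≤ s) (hP : P = 2 * s + e)
    (hm : m + (2 * e + k) = 2 * r) (hm1 : 1 ≤ m) (hB : B = s * (m / P) + min s (m % P))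
    (hn : n + 1 = (q + 1) * k + B) : ¬ AlwaysHits b c k n := by
  intro hall
  have hkm : k = m + 2 * s + 2 * e := by omega
  have hP0 : 0 < P := by omega
  set p : ℕ → Prop := β k P s m with hp
  have hinf : (Set.ofPred p).Infinite := by
    rw [← Nat.frequently_atTop_iff_infinite, Filter.frequently_atTop]
    intro a
    by_cases h : p a
    · exact ⟨a, le_rfl, h⟩
    · exact ⟨k + a, by omega, (β_anti hk a).2 h⟩
  set y : ℕ → ℕ := fun i => Nat.nth p (i + (s - 1)) with hy
  have hmem : ∀ i, p (y i) := fun i => Nat.nth_mem_of_infinite hinf _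
  have hcount : ∀ i, Nat.count p (y i) = i + (s - 1) := fun i => Nat.count_nth_of_infinite hinf _
  have hmono : StrictMono y := fun i j hij => Nat.nth_strictMono hinf (by omega)
  have hcP : Nat.count p (P - 1) = s - 1 := by
    have h := count_low (k := k) (P := P) (s := s) (m := m) hs0 (by omega) (by omega) (P - 1)
      (by omega)
    rw [show P - 1 + 1 = P by omega, Nat.div_self hP0, Nat.mod_self] at h
    simp only [hp]
    omega
  have hpP : p (P - 1) := by
    simp only [hp]
    rw [β_small (by omega)]
    refine ⟨by omega, ?_⟩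
    rw [show P - 1 + 1 = P by omega, Nat.mod_self]
    omega
  have hy0 : y 0 = P - 1 := by
    have h := Nat.nth_count hpP
    rw [hcP] at h
    simp only [hy, Nat.zero_add]
    exact h
  have hyge : ∀ i, P - 1 ≤ y i := by
    intro i
    rw [← hy0]
    exact hmono.monotone (Nat.zero_le i)
  have hcm : Nat.count p (m + P - 1) = s - 1 + B := by
    have h := count_low (k := k) (P := P) (s := s) (m := m) hs0 (by omega) (by omega) (m + P - 1)
      (by omega)
    rw [show m + P - 1 + 1 = m + P by omega, Nat.add_div_right _ hP0, Nat.add_mod_right,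
      Nat.mul_succ] at h
    simp only [hp]
    omega
  have hacc : Acceptable b c n (fun i => (y i : ℤ) - ((P - 1 : ℕ) : ℤ)) := by
    refine ⟨?_, ?_, ?_⟩
    · simp only [hy0]; simp
    · intro i _
      have : y i < y (i + 1) := hmono (Nat.lt_succ_self i)
      omega
    · intro i hi
      have key : y (i + b) < y i + c + 1 := by
        apply Nat.nth_lt_of_lt_count
        have hQ : (q + 1) * k = q * k + k := by ring
        have e1 : y i + c + 1 = 2 * ((q + 1) * k) + (y i - (P - 1)) := by
          have := hyge i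
          omega
        rw [e1]
        simp only [hp]
        rw [count_period hk]
        rcases Nat.lt_or_ge (m + 2 * P - 3) (y i) with h | h
        · have h1 : Nat.count p (m + P - 1) ≤ Nat.count p (y i - (P - 1)) :=
            Nat.count_monotone p (by omega)
          simp only [hp] at h1 hcm
          omega
        · have h1 := window (k := k) (P := P) (s := s) (m := m) hs0 he hm1 hP hkm (y i)
            (hmem i) (hyge i) h
          have h2 := hcount i
          simp only [hp] at h2
          omega
      omega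
  obtain ⟨i, j, hij, hj, hhit⟩ := hall _ hacc
  simp only at hhit
  have h1 : y j = k + y i := by omega
  have h2 := hmem j
  rw [h1] at h2
  exact (β_anti hk (y i)).1 h2 (hmem i)

/-- The lower bound `(q+1)k` for `c < 2 * b`. -/
lemma lower_block {q r e n : ℕ} (hk : 0 < k) (hb : b = q * k + r) 
    (her : e ≤ r) (hc : c + e = 2 * b)
    (hn : n + 1 = (q + 1) * k) : ¬ AlwaysHits b c k n := by
  intro hall
  have hQ : (q + 1) * k = q * k + k := by ring
  have hacc : Acceptable b c n (fun i => (i : ℤ) + k * ((i / k : ℕ) : ℤ)) := by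
    refine ⟨by simp, ?_, ?_⟩
    · intro i _
      have h1 : i / k ≤ (i + 1) / k := Nat.div_le_div_right (Nat.le_succ i)
      have h2 : (k : ℤ) * ((i / k : ℕ) : ℤ) ≤ k * (((i + 1) / k : ℕ) : ℤ) := by
        apply mul_le_mul_of_nonneg_left _ (by positivity)
        exact_mod_cast h1
      push_cast at h2 ⊢
      linarith
    · intro i hi
      have h1 : i / k = 0 := Nat.div_eq_of_lt (by omega)
      have h2 : (i + b) / k ≤ q := by
        apply Nat.le_of_lt_succ
        rw [Nat.div_lt_iff_lt_mul hk]
        have : (q + 1) * k = q.succ * k := rfl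
        omega
      have h3 : (k : ℤ) * (((i + b) / k : ℕ) : ℤ) ≤ k * q := by
        apply mul_le_mul_of_nonneg_left _ (by positivity)
        exact_mod_cast h2
      have h4 : ((q * k : ℕ) : ℤ) = k * q := by push_cast; ring
      simp only [h1]
      push_cast at h3 ⊢
      simp only [mul_zero, add_zero]
      have h5 : (c : ℤ) + e = 2 * b := by exact_mod_cast hc
      have h6 : (b : ℤ) = k * q + r := by rw [← h4]; exact_mod_cast hb
      have h7 : (e : ℤ) ≤ r := by exact_mod_cast her
      linarith
  obtain ⟨i, j, hij, hj, hhit⟩ := hall _ hacc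
  simp only at hhit
  have h1 : i / k ≤ j / k := Nat.div_le_div_right hij.le
  obtain ⟨d, hd⟩ := Nat.exists_eq_add_of_le h1
  rw [hd] at hhit
  push_cast at hhit
  have hk' : (0 : ℤ) < k := by exact_mod_cast hk
  have hij' : (i : ℤ) < j := by exact_mod_cast hij
  rcases Nat.lt_or_ge 0 d with h0 | h0
  · have h0' : (1 : ℤ) ≤ d := by exact_mod_cast h0
    nlinarith
  · have : d = 0 := by omega
    subst this
    have h2 : j = i + k := by
      have : (j : ℤ) = i + k := by
        simp only [Nat.cast_zero, add_zero] at hhit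
        linarith
      exact_mod_cast this
    rw [h2, Nat.add_div_right _ hk] at hd
    omega

/-- For `n < b` nothing is forced. -/
lemma lower_trivial {n : ℕ} (hn : n < b) : ¬ AlwaysHits b c k n := by
  intro hall
  have hacc : Acceptable b c n (fun i => ((k : ℤ) + 1) * i) := by
    refine ⟨by simp, ?_, ?_⟩
    · intro i _
      push_cast
      have : (0 : ℤ) ≤ k := by positivity
      linarith
    · intro i hi
      omega
  obtain ⟨i, j, hij, hj, hhit⟩ := hall _ hacc
  simp only at hhit
  have hij' : (i : ℤ) + 1 ≤ j := by exact_mod_cast hij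
  have : (0 : ℤ) ≤ k := by positivity
  nlinarith

/-- If `k` is odd and `c ≥ 2b`, the even numbers never hit `k`. -/
lemma inf_odd {n : ℕ} (hk : k % 2 = 1) (hc : 2 * b ≤ c) : ¬ AlwaysHits b c k n := by
  intro hall
  have hacc : Acceptable b c n (fun i => 2 * (i : ℤ)) := by
    refine ⟨by simp, ?_, ?_⟩
    · intro i _
      omega
    · intro i hi
      omega
  obtain ⟨i, j, hij, hj, hhit⟩ := hall _ hacc
  simp only at hhit
  omega

/-- General infinite case: `k = 2 * t * k₁` with `k₁` odd, and either `2t ∣ b` and `c ≥ 2b`,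
or `c ≥ 2b + 1`. -/
lemma inf_even {n t k₁ : ℕ} (ht : 0 < t) (hk : k = 2 * (t * k₁)) (hk1 : k₁ % 2 = 1)
    (hc : (2 * b ≤ c ∧ 2 * t ∣ b) ∨ 2 * b + 1 ≤ c) : ¬ AlwaysHits b c k n := by
  intro hall
  have hacc : Acceptable b c n (fun i => 2 * (i : ℤ) + ((i / t % 2 : ℕ) : ℤ)) := by
    refine ⟨by simp, ?_, ?_⟩
    · intro i _
      have h1 : i / t % 2 < 2 := Nat.mod_lt _ (by norm_num)
      have h2 : (i + 1) / t % 2 < 2 := Nat.mod_lt _ (by norm_num)
      push_cast
      omega
    · intro i hi
      rcases hc with ⟨hc, b', hb'⟩ | hc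
      · have h1 : (i + b) / t % 2 = i / t % 2 := by
          rw [hb', show i + 2 * t * b' = i + t * (2 * b') by ring, Nat.add_mul_div_left _ _ ht,
            Nat.add_mul_mod_self_left]
        simp only [h1]
        push_cast
        omega
      · have h1 : i / t % 2 < 2 := Nat.mod_lt _ (by norm_num)
        have h2 : (i + b) / t % 2 < 2 := Nat.mod_lt _ (by norm_num)
        push_cast
        omega
  obtain ⟨i, j, hij, hj, hhit⟩ := hall _ hacc
  simp only at hhit
  have h1 : i / t % 2 < 2 := Nat.mod_lt _ (by norm_num)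
  have h2 : j / t % 2 < 2 := Nat.mod_lt _ (by norm_num)
  have h3 : j = i + t * k₁ := by
    set w := i / t % 2
    set w' := j / t % 2
    omega
  have h4 : j / t % 2 = (i / t + k₁) % 2 := by
    rw [h3, Nat.add_mul_div_left _ _ ht]
  set T := t * k₁
  omega

end lower

section equal

variable {b k : ℕ}

/-- Upper bound for `c = 2b` (a Fine-Wilf argument). -/
lemma upper_eq {n g b' h : ℕ} (hg : 0 < g) (hh : 0 < h) (hb : b = g * b') (hb0 : 0 < b')
    (hk : k = g * (2 * h)) (hcop : Nat.Coprime b' (2 * h)) (hn : n + g = b + k) :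
    AlwaysHits b (2 * b) k n := by
  intro a ha
  by_contra hcon
  have hk0 : 0 < k := by rw [hk]; positivity
  set σ := b' + 2 * h with hσ
  have hσ0 : 0 < σ := by omega
  have hbound : ∀ x, x < σ → g * x ≤ n := by
    intro x hx
    have h1 : g * (x + 1) ≤ g * σ := Nat.mul_le_mul_left g hx
    have h2 : g * σ = b + k := by rw [hσ, hb, hk]; ring
    have h3 : g * (x + 1) = g * x + g := by ring
    omega
  set v : ℕ → ℤ := fun j => a (g * (j * b' % σ)) - 2 * ((g * (j * b' % σ) : ℕ) : ℤ) with hv
  have hstep : ∀ j, v (j + 1) ≤ v j := by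
    intro j
    have hx : j * b' % σ < σ := Nat.mod_lt _ hσ0
    set x := j * b' % σ with hxdef
    have h0 : (j + 1) * b' % σ = (x + b') % σ := by
      rw [hxdef, Nat.mod_add_mod]; congr 1; ring
    rcases Nat.lt_or_ge x (2 * h) with h1 | h1
    · have h2 : (j + 1) * b' % σ = x + b' := by
        rw [h0, Nat.mod_eq_of_lt (by omega)]
      have h3 := ha.growth (g * x) (by
        have := hbound (x + b') (by omega)
        rw [Nat.mul_add, ← hb] at this
        exact this)
      simp only [hv, h2, ← hxdef]
      have h4 : g * (x + b') = g * x + b := by rw [hb]; ring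
      rw [h4]
      push_cast at h3 ⊢
      linarith
    · have h2 : (j + 1) * b' % σ = x - 2 * h := by
        rw [h0, Nat.mod_eq_sub_mod (by omega), Nat.mod_eq_of_lt (by omega)]
        omega
      have h4 : g * (x - 2 * h) + k = g * x := by
        rw [hk, ← Nat.mul_add]; congr 1; omega
      have h3 := gap_k ha hk0 hcon (g * (x - 2 * h)) (by
        rw [h4]; exact hbound x hx)
      rw [h4] at h3
      simp only [hv, h2, ← hxdef]
      have h5 : ((g * x : ℕ) : ℤ) = ((g * (x - 2 * h) : ℕ) : ℤ) + k := by
        rw [← h4]; push_cast; ring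
      rw [h5]
      linarith
  have hanti : Antitone v := antitone_nat_of_succ_le hstep
  have hv0 : v 0 = 0 := by simp [hv, ha.zero]
  have hvσ : v σ = 0 := by simp [hv, ha.zero]
  have hcop' : Nat.Coprime b' σ := by
    rw [hσ]
    exact Nat.coprime_self_add_right.2 hcop
  obtain ⟨u, -, hu⟩ := Nat.exists_mul_mod_eq_one_of_coprime hcop' (by omega)
  set j := u * h % σ with hj
  have hjlt : j < σ := Nat.mod_lt _ hσ0
  have hjh : j * b' % σ = h := by
    have h1 : j * b' % σ = (b' * u * h) % σ := by
      rw [hj, Nat.mod_mul_mod]; congr 1; ring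
    rw [h1, Nat.mul_mod, hu, Nat.one_mul, Nat.mod_mod, Nat.mod_eq_of_lt (by omega)]
  have hvj : v j = 0 := by
    have h1 := hanti (Nat.zero_le j)
    have h2 := hanti hjlt.le
    rw [hv0] at h1
    rw [hvσ] at h2
    omega
  simp only [hv, hjh] at hvj
  apply hcon
  refine ⟨0, g * h, by positivity, hbound h (by omega), ?_⟩
  rw [ha.zero]
  have h3 : (k : ℤ) = 2 * ((g * h : ℕ) : ℤ) := by rw [hk]; push_cast; ring
  rw [h3]
  linarith

/-- the `0/1` correction word -/
def wd (u h i : ℕ) : ℕ := if ((i + 1) * u + (2 * h - 1)) % (2 * h) < h then 1 else 0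

/-- Lower bound for `c = 2b`. -/
lemma lower_eq {n g b' h : ℕ} (hg : 0 < g) (hh : 0 < h) (hb : b = g * b')
    (hk : k = g * (2 * h)) (hcop : Nat.Coprime b' (2 * h)) (hn : n + 1 + g = b + k) :
    ¬ AlwaysHits b (2 * b) k n := by
  intro hall
  obtain ⟨u, -, hu⟩ := Nat.exists_mul_mod_eq_one_of_coprime hcop (by omega)
  have hu2 : u % 2 = 1 := by
    have h1 : b' * u % (2 * h) % 2 = 1 := by rw [hu]
    rw [Nat.mod_mul_right_mod] at h1
    by_contra hcon
    have h2 : u % 2 = 0 := by omega
    rw [Nat.mul_mod, h2] at h1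
    simp at h1
  have hcu : Nat.Coprime u (2 * h) := by
    have h1 : Nat.gcd u (2 * h) ∣ b' * u % (2 * h) := by
      rw [Nat.dvd_mod_iff (Nat.gcd_dvd_right _ _)]
      exact Dvd.dvd.mul_left (Nat.gcd_dvd_left _ _) _
    rw [hu] at h1
    exact Nat.dvd_one.1 h1
  have hw01 : ∀ i, wd u h i ≤ 1 := by
    intro i; unfold wd; split_ifs <;> omega
  have hwstep : ∀ i, i + 2 ≤ 2 * h → wd u h (i + b') ≤ wd u h i := by
    intro i hi
    unfold wd
    have h1 : ((i + b' + 1) * u + (2 * h - 1)) % (2 * h) =
        (((i + 1) * u + (2 * h - 1)) % (2 * h) + 1) % (2 * h) := by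
      rw [Nat.mod_add_mod, show (i + b' + 1) * u + (2 * h - 1) =
        ((i + 1) * u + (2 * h - 1)) + b' * u by ring]
      rw [Nat.add_mod _ (b' * u), hu, Nat.add_mod _ 1]
      simp
    rw [h1]
    have h2 : ((i + 1) * u + (2 * h - 1)) % (2 * h) ≠ 2 * h - 1 := by
      intro h3
      have h4 : 2 * h ∣ (i + 1) * u := by
        have h5 : ((i + 1) * u + (2 * h - 1)) % (2 * h) + 1 = 2 * h := by omega
        have h6 : 2 * h ∣ (i + 1) * u + 2 * h := by
          have h7 : ((i + 1) * u + (2 * h - 1) + 1) % (2 * h) = 0 := by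
            rw [← Nat.mod_add_mod, h5, Nat.mod_self]
          have h8 : (i + 1) * u + (2 * h - 1) + 1 = (i + 1) * u + 2 * h := by omega
          rw [h8] at h7
          exact Nat.dvd_of_mod_eq_zero h7
        exact (Nat.dvd_add_left (dvd_refl _)).1 h6
      have h9 : 2 * h ∣ i + 1 := (Nat.Coprime.dvd_mul_right hcu.symm).1 h4
      have := Nat.le_of_dvd (by omega) h9
      omega
    have h3 : ((i + 1) * u + (2 * h - 1)) % (2 * h) < 2 * h := Nat.mod_lt _ (by omega)
    set x := ((i + 1) * u + (2 * h - 1)) % (2 * h)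
    rw [Nat.mod_eq_of_lt (show x + 1 < 2 * h by omega)]
    split_ifs <;> omega
  have hwanti : ∀ i, wd u h (i + h) ≠ wd u h i := by
    intro i
    unfold wd
    have h1 : ((i + h + 1) * u + (2 * h - 1)) % (2 * h) =
        (((i + 1) * u + (2 * h - 1)) % (2 * h) + h) % (2 * h) := by
      obtain ⟨u', hu'⟩ : ∃ u', u = 2 * u' + 1 := ⟨u / 2, by omega⟩
      rw [Nat.mod_add_mod, show (i + h + 1) * u + (2 * h - 1) =
        ((i + 1) * u + (2 * h - 1)) + h + 2 * h * u' by rw [hu']; ring, Nat.add_mul_mod_self_left]
    rw [h1]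
    have h3 : ((i + 1) * u + (2 * h - 1)) % (2 * h) < 2 * h := Nat.mod_lt _ (by omega)
    set x := ((i + 1) * u + (2 * h - 1)) % (2 * h)
    rcases Nat.lt_or_ge x h with h4 | h4
    · rw [Nat.mod_eq_of_lt (show x + h < 2 * h by omega), if_neg (by omega), if_pos h4]
      omega
    · have h5 : (x + h) % (2 * h) = x - h := by
        rw [Nat.mod_eq_sub_mod (by omega), Nat.mod_eq_of_lt (by omega)]; omega
      rw [h5, if_pos (by omega), if_neg (by omega)]
      omega
  set a : ℕ → ℤ := fun x => (g : ℤ) * (2 * ((x / g : ℕ) : ℤ) + (wd u h (x / g) : ℤ)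
    - (wd u h 0 : ℤ)) + ((x % g : ℕ) : ℤ) with ha
  have hg' : (0 : ℤ) < g := by exact_mod_cast hg
  have hacc : Acceptable b (2 * b) n a := by
    refine ⟨by simp [ha], ?_, ?_⟩
    · intro x _
      simp only [ha]
      have hx := Nat.div_add_mod x g
      have hxl : x % g < g := Nat.mod_lt _ hg
      rcases Nat.lt_or_ge (x % g + 1) g with h1 | h1
      · have h2 : (x + 1) / g = x / g := by
          rw [← hx, Nat.add_assoc, Nat.mul_add_div hg, Nat.div_eq_of_lt h1, Nat.mul_add_div hg,
            Nat.div_eq_of_lt hxl]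
        have h3 : (x + 1) % g = x % g + 1 := by
          conv_lhs => rw [← hx]
          rw [Nat.add_assoc, Nat.mul_add_mod, Nat.mod_eq_of_lt h1]
        rw [h2, h3]
        push_cast
        linarith
      · have h0 : x + 1 = g * (x / g + 1) := by
          rw [Nat.mul_add, Nat.mul_one]; omega
        have h2 : (x + 1) / g = x / g + 1 := by
          rw [h0, Nat.mul_div_cancel_left _ hg]
        have h3 : (x + 1) % g = 0 := by
          rw [h0, Nat.mul_mod_right]
        rw [h2, h3]
        have h4 := hw01 (x / g)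
        have h4' : (wd u h (x / g) : ℤ) ≤ 1 := by exact_mod_cast h4
        have h5 : (0 : ℤ) ≤ (wd u h (x / g + 1) : ℤ) := by positivity
        have h6 : ((x % g : ℕ) : ℤ) < g := by exact_mod_cast hxl
        push_cast
        have h7 : (g : ℤ) * (2 * ((x / g : ℕ) : ℤ) + (wd u h (x / g) : ℤ) - (wd u h 0 : ℤ)) + g ≤
          (g : ℤ) * (2 * (((x / g : ℕ) : ℤ) + 1) + (wd u h (x / g + 1) : ℤ) - (wd u h 0 : ℤ)) := by
          rw [← mul_add_one]
          apply mul_le_mul_of_nonneg_left _ hg'.le
          linarith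
        push_cast at h6 h7 ⊢
        linarith
    · intro x hx
      simp only [ha]
      have h2 : (x + b) / g = x / g + b' := by
        rw [hb, Nat.add_mul_div_left _ _ hg]
      have h3 : (x + b) % g = x % g := by
        rw [hb, Nat.add_mul_mod_self_left]
      rw [h2, h3]
      have h4 : x / g + 2 ≤ 2 * h := by
        have h5 : (x + b) / g < b' + 2 * h - 1 := by
          rw [Nat.div_lt_iff_lt_mul hg]
          have h6 : (b' + 2 * h - 1) * g + g = b + k := by
            have : (b' + 2 * h - 1) * g + g = (b' + 2 * h - 1 + 1) * g := by ring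
            rw [this, show b' + 2 * h - 1 + 1 = b' + 2 * h by omega, hb, hk]; ring
          omega
        omega
      have h7 := hwstep (x / g) h4
      have h7' : (wd u h (x / g + b') : ℤ) ≤ wd u h (x / g) := by exact_mod_cast h7
      have h8 : (g : ℤ) * wd u h (x / g + b') ≤ g * wd u h (x / g) :=
        mul_le_mul_of_nonneg_left h7' hg'.le
      have h9 : (b : ℤ) = g * b' := by exact_mod_cast hb
      push_cast
      rw [h9]
      nlinarith
  obtain ⟨x, y, hxy, hy, hhit⟩ := hall _ hacc
  simp only [ha] at hhit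
  have hk' : (k : ℤ) = g * (2 * h) := by exact_mod_cast hk
  rw [hk'] at hhit
  have hxl : x % g < g := Nat.mod_lt _ hg
  have hyl : y % g < g := Nat.mod_lt _ hg
  have hmod : y % g = x % g := by
    have h1 : (g : ℤ) ∣ ((y % g : ℕ) : ℤ) - ((x % g : ℕ) : ℤ) := by
      refine ⟨(2 * ((x / g : ℕ) : ℤ) + (wd u h (x / g) : ℤ) - (wd u h 0 : ℤ)) + 2 * h -
        (2 * ((y / g : ℕ) : ℤ) + (wd u h (y / g) : ℤ) - (wd u h 0 : ℤ)), ?_⟩
      linarith
    have h2 : |((y % g : ℕ) : ℤ) - ((x % g : ℕ) : ℤ)| < g := by
      rw [abs_lt]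
      constructor <;> omega
    have h3 := Int.eq_zero_of_abs_lt_dvd h1 h2
    omega
  rw [hmod] at hhit
  have hcan : (2 * ((y / g : ℕ) : ℤ) + (wd u h (y / g) : ℤ) - (wd u h 0 : ℤ)) =
      (2 * ((x / g : ℕ) : ℤ) + (wd u h (x / g) : ℤ) - (wd u h 0 : ℤ)) + 2 * h := by
    have h1 : (g : ℤ) * (2 * ((y / g : ℕ) : ℤ) + (wd u h (y / g) : ℤ) - (wd u h 0 : ℤ)) =
      g * ((2 * ((x / g : ℕ) : ℤ) + (wd u h (x / g) : ℤ) - (wd u h 0 : ℤ)) + 2 * h) := by
      rw [mul_add]; linarith
    exact mul_left_cancel₀ hg'.ne' h1
  have h1 := hw01 (x / g)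
  have h2 := hw01 (y / g)
  have h3 : y / g = x / g + h := by omega
  have h4 := hwanti (x / g)
  rw [← h3] at h4
  omega

end equal

/-- `N b c k`: the least `n ≥ 1` such that every acceptable sequence `a 0, ..., a n` hits `k`,
and `⊤` if there is no such `n`. -/
noncomputable def N (b c k : ℕ) : ℕ∞ :=
  sInf {x : ℕ∞ | ∃ n : ℕ, 1 ≤ n ∧ AlwaysHits b c k n ∧ x = (n : ℕ∞)}

/-- The value of `N b c k` in the case `c < 2 * b`. -/
def low (b c k : ℕ) : ℕ :=
  let e := 2 * b - c
  let r := b % k
  let s := k - r
  let P := 2 * s + e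
  let m := 2 * r - (2 * e + k)
  if r < e then b else (b / k + 1) * k + (s * (m / P) + min s (m % P))

/-- The value of `N b c k` for all `1 ≤ b ≤ c` and `k ≥ 1`. -/
def answer (b c k : ℕ) : ℕ∞ :=
  if c < 2 * b then (low b c k : ℕ∞)
  else if c = 2 * b ∧ padicValNat 2 b < padicValNat 2 k then ((b + k - Nat.gcd b k : ℕ) : ℕ∞)
  else ⊤

/-- monotonicity packaged. -/
lemma iff_of {b c k v : ℕ} (h1 : AlwaysHits b c k v) (h2 : 1 ≤ v → ¬ AlwaysHits b c k (v - 1))
    (n : ℕ) : AlwaysHits b c k n ↔ v ≤ n := by
  constructor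
  · intro h
    by_contra hc
    push Not at hc
    exact h2 (by omega) (h.mono (by omega))
  · intro h
    exact h1.mono h

lemma case_low {b c k : ℕ} (hb : 1 ≤ b) (hbc : b ≤ c) (hk : 1 ≤ k) (hc : c < 2 * b) (n : ℕ) :
    AlwaysHits b c k n ↔ low b c k ≤ n := by
  have hdm := Nat.div_add_mod b k
  have hcomm : k * (b / k) = b / k * k := Nat.mul_comm _ _
  have hr : b % k < k := Nat.mod_lt _ (by omega)
  by_cases h : b % k < 2 * b - c
  · have e1 : low b c k = b := by
      unfold low; simp only; rw [if_pos h]
    rw [e1]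
    apply iff_of
    · apply always_easy (by omega) hbc
      omega
    · intro _
      exact lower_trivial (by omega)
  · have e1 : low b c k = (b / k + 1) * k + ((k - b % k) *
        ((2 * (b % k) - (2 * (2 * b - c) + k)) / (2 * (k - b % k) + (2 * b - c))) +
        min (k - b % k)
          ((2 * (b % k) - (2 * (2 * b - c) + k)) % (2 * (k - b % k) + (2 * b - c)))) := by
      unfold low; simp only; rw [if_neg h]
    rw [e1]
    apply iff_of
    · exact always_main (q := b / k) (r := b % k) (e := 2 * b - c) (s := k - b % k) hk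
        (by omega) (by omega) (by omega) (by omega) (by omega) (by omega) rfl rfl rfl
    · intro _
      rcases Nat.eq_zero_or_pos (2 * (b % k) - (2 * (2 * b - c) + k)) with h0 | h0
      · rw [h0]
        simp only [Nat.zero_div, Nat.mul_zero, Nat.zero_mod, Nat.min_zero, Nat.add_zero]
        have hpos : 0 < (b / k + 1) * k := by positivity
        exact lower_block (q := b / k) (r := b % k) (e := 2 * b - c) (by omega) (by omega)
          (by omega) (by omega) (by omega)
      · have hpos : 0 < (b / k + 1) * k := by positivity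
        exact lower_word (q := b / k) (r := b % k) (e := 2 * b - c) (s := k - b % k) (by omega)
          (by omega) (by omega) (by omega) (by omega) (by omega) rfl
          (m := 2 * (b % k) - (2 * (2 * b - c) + k)) (by omega) h0 rfl (by omega)

lemma case_eq {b k : ℕ} (hb : 1 ≤ b) (hk : 1 ≤ k) (hv : padicValNat 2 b < padicValNat 2 k)
    (n : ℕ) : AlwaysHits b (2 * b) k n ↔ b + k - Nat.gcd b k ≤ n := by
  obtain ⟨b', k', hcop, hb', hk'⟩ := Nat.exists_coprime b k
  set g := Nat.gcd b k with hg
  have hg0 : 0 < g := Nat.gcd_pos_of_pos_left k hb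
  have hb0 : 0 < b' := by
    rcases Nat.eq_zero_or_pos b' with h | h
    · rw [h] at hb'; omega
    · exact h
  have hk0 : 0 < k' := by
    rcases Nat.eq_zero_or_pos k' with h | h
    · rw [h] at hk'; omega
    · exact h
  have h2 : 2 ∣ k' := by
    apply dvd_of_one_le_padicValNat
    rw [hb', hk', padicValNat.mul (by omega) (by omega), padicValNat.mul (by omega) (by omega)]
      at hv
    omega
  obtain ⟨h, rfl⟩ := h2
  have hb'' : b = g * b' := by rw [Nat.mul_comm]; exact hb'
  have hk'' : k = g * (2 * h) := by rw [Nat.mul_comm]; exact hk'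
  have hgb : g ≤ b := Nat.le_of_dvd hb (Nat.gcd_dvd_left b k)
  apply iff_of
  · exact upper_eq hg0 (by omega) hb'' hb0 hk'' hcop (by omega)
  · intro _
    exact lower_eq hg0 (by omega) hb'' hk'' hcop (by omega)

lemma case_eq_inf {b c k : ℕ} (hk : 1 ≤ k) (hc : 2 * b ≤ c)
    (hv : ¬ (c = 2 * b ∧ padicValNat 2 b < padicValNat 2 k))
    (n : ℕ) : ¬ AlwaysHits b c k n := by
  rcases Nat.lt_or_ge (2 * b) c with h | h
  · rcases Nat.mod_two_eq_zero_or_one k with h2 | h2
    · exact inf_even (t := k / 2) (k₁ := 1) (by omega) (by omega) (by omega) (Or.inr (by omega))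
    · exact inf_odd h2 hc
  · have hc' : c = 2 * b := by omega
    have hv' : padicValNat 2 k ≤ padicValNat 2 b := by
      by_contra hcon
      exact hv ⟨hc', by omega⟩
    obtain ⟨a, k₁, hk₁, hk'⟩ := Nat.exists_eq_two_pow_mul_odd (show k ≠ 0 by omega)
    have ha : 2 ^ a ∣ b := by
      have h1 : 2 ^ a ∣ 2 ^ padicValNat 2 b := by
        apply pow_dvd_pow
        refine le_trans ?_ hv'
        rw [← padicValNat_dvd_iff_le (by omega : k ≠ 0)]
        exact ⟨k₁, hk'⟩
      exact h1.trans pow_padicValNat_dvd
    rcases Nat.eq_zero_or_pos a with h0 | h0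
    · rw [h0] at hk'
      have : k % 2 = 1 := by
        rw [hk', pow_zero, Nat.one_mul]; exact Nat.odd_iff.1 hk₁
      exact inf_odd this hc
    · obtain ⟨a', rfl⟩ : ∃ a', a = a' + 1 := ⟨a - 1, by omega⟩
      have e1 : 2 ^ (a' + 1) = 2 * 2 ^ a' := by ring
      refine inf_even (t := 2 ^ a') (k₁ := k₁) (by positivity) ?_ (Nat.odd_iff.1 hk₁)
        (Or.inl ⟨hc, ?_⟩)
      · rw [hk', e1]; ring
      · rw [← e1]; exact ha

theorem main (b c k : ℕ) (hb : 1 ≤ b) (hbc : b ≤ c) (hk : 1 ≤ k) (n : ℕ) :
    AlwaysHits b c k n ↔ answer b c k ≤ n := by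
  unfold answer
  by_cases h1 : c < 2 * b
  · rw [if_pos h1, case_low hb hbc hk h1]
    exact Nat.cast_le.symm
  · rw [if_neg h1]
    by_cases h2 : c = 2 * b ∧ padicValNat 2 b < padicValNat 2 k
    · rw [if_pos h2, h2.1, case_eq hb hk h2.2]
      exact Nat.cast_le.symm
    · rw [if_neg h2]
      constructor
      · intro h
        exact absurd h (case_eq_inf hk (by omega) h2 n)
      · intro h
        exact absurd (top_le_iff.1 h) (ENat.natCast_ne_top n)

/-- Complete answer: the value of `N b c k` for all positive integers `b ≤ c` and `k`;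
equivalently, for every `n ≥ 1` all acceptable sequences `a 0, ..., a n` hit `k` if and only if
`n ≥ answer b c k`. -/
theorem result (b c k : ℕ) (hb : 1 ≤ b) (hbc : b ≤ c) (hk : 1 ≤ k) :
    N b c k = answer b c k ∧
    ∀ n : ℕ, 1 ≤ n → (AlwaysHits b c k n ↔ answer b c k ≤ (n : ℕ∞)) := by
  refine ⟨?_, fun n _ => main b c k hb hbc hk n⟩
  apply le_antisymm
  · rcases eq_or_ne (answer b c k) ⊤ with h | h
    · rw [h]; exact le_top
    · obtain ⟨v, hv⟩ := ENat.ne_top_iff_exists.1 h
      have hall : AlwaysHits b c k v := by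
        rw [main b c k hb hbc hk, hv]
      apply sInf_le
      refine ⟨v, ?_, hall, hv.symm⟩
      by_contra h0
      exact lower_trivial (by omega) hall
  · apply le_sInf
    rintro x ⟨n, -, hn, rfl⟩
    exact (main b c k hb hbc hk n).1 hn

end Pool.Agent.Results.MP_25dd1e_co.Determination
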